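import Pool.Agent.Q31.GLW.Stm

set_option autoImplicit false

namespace Pool.Agent.Q121.GLW

open Pool.Agent.Q31.GLW
open Module Cardinal Submodule

/-- the map `(a, b) ↦ (a + b, b)` -/
def shear (F W : Type) [Field F] [AddCommGroup W] [Module F W] : (W × W) ≃ₗ[F] (W × W) where
  toFun w := (w.1 + w.2, w.2)
  invFun w := (w.1 - w.2, w.2)
  map_add' x y := by
    ext
    · simp only [Prod.fst_add, Prod.snd_add]; abel
    · simp only [Prod.snd_add]
  map_smul' c x := by
    ext
    · simp only [Prod.smul_fst, Prod.smul_snd, RingHom.id_apply, smul_add]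
    · simp only [Prod.smul_snd, RingHom.id_apply]
  left_inv w := by
    ext
    · simp only [add_sub_cancel_right]
    · rfl
  right_inv w := by
    ext
    · simp only [sub_add_cancel]
    · rfl

theorem shear_apply (F W : Type) [Field F] [AddCommGroup W] [Module F W] (w : W × W) :
    shear F W w = (w.1 + w.2, w.2) := rfl

theorem t_NP : S_NP := by
  intro F V _ _ _ hr
  classical
  let ι := Basis.ofVectorSpaceIndex F V
  let b : Basis ι F V := Basis.ofVectorSpace F V
  have hι : #ι = Module.rank F V := b.mk_eq_rank''
  have hinf : ℵ₀ ≤ #ι := hι ▸ hr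
  have hI : Infinite ι := Cardinal.infinite_iff.2 hinf
  have hadd : #ι = #(ι ⊕ ι) := by
    rw [← Cardinal.add_def, Cardinal.add_eq_self hinf]
  obtain ⟨f⟩ := Cardinal.eq.1 hadd
  let W := ι →₀ F
  let e : V ≃ₗ[F] (W × W) :=
    (b.repr.trans (Finsupp.domLCongr f)).trans (Finsupp.sumFinsuppLEquivProdFinsupp F)
  obtain ⟨i⟩ := hI.nonempty
  have hx : (Finsupp.single i (1 : F) : W) ≠ 0 := by
    intro h
    exact one_ne_zero (Finsupp.single_eq_zero.1 h)
  set x : W := Finsupp.single i (1 : F) with hxd
  refine ⟨(e.trans (shear F W)).trans e.symm, ?_⟩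
  rintro (⟨c, hc⟩ | h)
  · have h1 : ∀ w : W × W, shear F W w = c • w := by
      intro w
      have := hc (e.symm w)
      simp only [LinearEquiv.trans_apply, LinearEquiv.apply_symm_apply] at this
      have h2 := congrArg e this
      simpa using h2
    have h2 := h1 (x, 0)
    rw [shear_apply] at h2
    have h3 := congrArg Prod.fst h2
    simp only [add_zero, Prod.smul_fst] at h3
    have h4 := h1 (0, x)
    rw [shear_apply] at h4
    have h5 := congrArg Prod.fst h4
    simp only [zero_add, Prod.smul_fst, smul_zero] at h5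
    exact hx h5
  · have h1 := h 1
    have hW : FiniteDimensional F W := by
      let g : V →ₗ[F] W := (LinearMap.snd F W W).comp (e : V →ₗ[F] (W × W))
      have hg : LinearMap.range ((((e.trans (shear F W)).trans e.symm : V ≃ₗ[F] V) : V →ₗ[F] V)
          - (1 : F) • LinearMap.id) ≤ LinearMap.ker g := by
        rintro _ ⟨v, rfl⟩
        rw [LinearMap.mem_ker]
        simp only [g, LinearMap.comp_apply, LinearMap.sub_apply, LinearMap.smul_apply, one_smul,
          LinearMap.id_apply, map_sub, LinearEquiv.coe_coe, LinearEquiv.trans_apply,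
          LinearEquiv.apply_symm_apply, LinearMap.snd_apply, shear_apply, Prod.snd_sub, sub_self]
      refine Module.Finite.of_surjective ((LinearMap.range
        ((((e.trans (shear F W)).trans e.symm : V ≃ₗ[F] V) : V →ₗ[F] V)
          - (1 : F) • LinearMap.id)).liftQ g hg) ?_
      intro w
      refine ⟨Submodule.Quotient.mk (e.symm (0, w)), ?_⟩
      simp only [Submodule.liftQ_apply, g, LinearMap.comp_apply, LinearEquiv.coe_coe,
        LinearEquiv.apply_symm_apply, LinearMap.snd_apply]
    have hb : Basis ι F W := Finsupp.basisSingleOne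
    have := FiniteDimensional.fintypeBasisIndex hb
    exact not_finite ι

end Pool.Agent.Q121.GLW
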